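import Pool.Agent.Helper39.Trans.Goals

/-!
# Davenport-Schinzel sequences of order 3 (packet A for MP_549fdb_co)

`ds3 : DS3`: a sequence without equal neighbours and without alternations `a b a b a` on `N` symbols
has length at most `C N (α(N) + 1)`.
-/

namespace Pool.Agent.Helper88.Trans

open Finset Classical
open Pool.Agent.Helper39.Trans

variable {σ : Type}

theorem alt5_sub {L M : List σ} (h : Alt5Free M) (hs : L.Sublist M) : Alt5Free L :=
  fun a b hab hh => h a b hab (hh.trans hs)

/-- Number of equal neighbours. -/
noncomputable def rep : List σ → ℕ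
  | [] => 0
  | [_] => 0
  | a :: b :: l => (if a = b then 1 else 0) + rep (b :: l)

theorem rep_nodup (L : List σ) (h : L.Nodup) : rep L = 0 := by
  induction L with
  | nil => rfl
  | cons a l ih =>
    cases l with
    | nil => rfl
    | cons b l =>
      have h1 := ih (List.nodup_cons.mp h).2
      have h2 : a ≠ b := by
        intro hab
        exact (List.nodup_cons.mp h).1 (by simp [hab])
      simp [rep, h2, h1]

theorem rep_append (X Y : List σ) : rep (X ++ Y) ≤ rep X + rep Y + 1 := by
  induction X with
  | nil => simp only [List.nil_append]; omega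
  | cons a l ih =>
    cases l with
    | nil =>
      cases Y with
      | nil => simp [rep]
      | cons b Y =>
        simp only [List.cons_append, List.nil_append, rep]
        split_ifs <;> omega
    | cons b l =>
      simp only [List.cons_append, rep] at ih ⊢
      omega

theorem rep_flatten (U : List (List σ)) (h : ∀ b ∈ U, b.Nodup) : rep U.flatten ≤ U.length := by
  induction U with
  | nil => simp [rep]
  | cons b U ih =>
    have h1 := ih (fun c hc => h c (List.mem_cons_of_mem _ hc))
    have h2 := rep_nodup b (h b (by simp))
    have h3 := rep_append b U.flatten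
    simp only [List.flatten_cons, List.length_cons]
    omega

/-- Sequences without `x y x y`. -/
theorem ds2_aux : ∀ (u : List σ) (A : List σ) (z : σ),
    (∀ x y, x ≠ y → ¬ ([x, y, x, y].Sublist (A ++ z :: u))) →
    u.length ≤ (u.toFinset \ (A ++ [z]).toFinset).card + (z :: u).toFinset.card +
      rep (z :: u) := by
  intro u
  induction u with
  | nil => intro A z _; simp
  | cons x C ih =>
    intro A z h
    have h' := ih (A ++ [z]) x (by simpa using h)
    have hsub1 : C.toFinset \ ((A ++ [z]) ++ [x]).toFinset ⊆
        (x :: C).toFinset \ (A ++ [z]).toFinset := by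
      intro y hy
      simp at hy ⊢
      tauto
    have hsub2 : (x :: C).toFinset ⊆ (z :: x :: C).toFinset := by
      intro y hy
      simp at hy ⊢
      tauto
    have hc1 := card_le_card hsub1
    have hc2 := card_le_card hsub2
    simp only [List.length_cons]
    by_cases hzx : z = x
    · have : rep (z :: x :: C) = 1 + rep (x :: C) := by simp [rep, hzx]
      omega
    · have hr : rep (z :: x :: C) = rep (x :: C) := by simp [rep, hzx]
      by_cases hxA : x ∈ A
      · have hzC : z ∉ C := by
          intro hzC
          exact h x z (Ne.symm hzx) (List.Sublist.append (List.singleton_sublist.2 hxA)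
            (.cons_cons z (.cons_cons x (List.singleton_sublist.2 hzC))))
        have : (z :: x :: C).toFinset.card = (x :: C).toFinset.card + 1 := by
          rw [List.toFinset_cons, card_insert_of_notMem]
          simp
          tauto
        omega
      · have : (C.toFinset \ ((A ++ [z]) ++ [x]).toFinset).card <
            ((x :: C).toFinset \ (A ++ [z]).toFinset).card := by
          apply card_lt_card
          refine ⟨hsub1, fun hh => ?_⟩
          have h3 : x ∈ (x :: C).toFinset \ (A ++ [z]).toFinset := by
            simp [hxA, Ne.symm hzx]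
          have h4 := hh h3
          simp at h4
        omega

theorem ds2 (u : List σ) (h : ∀ x y, x ≠ y → ¬ ([x, y, x, y].Sublist u)) :
    u.length ≤ 2 * u.toFinset.card + rep u := by
  cases u with
  | nil => simp
  | cons z u =>
    have h1 := ds2_aux u [] z (by simpa using h)
    have h2 : (u.toFinset \ ([] ++ [z]).toFinset).card < (z :: u).toFinset.card := by
      apply card_lt_card
      refine ⟨fun y hy => ?_, fun hh => ?_⟩
      · simp at hy ⊢
        tauto
      · have h3 := hh (by simp : z ∈ (z :: u).toFinset)
        simp at h3
    simp only [List.length_cons]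
    omega

/-- Sequences without `x y x`. -/
theorem ds1_aux : ∀ (u : List σ) (A : List σ) (z : σ),
    (∀ x y, x ≠ y → ¬ ([x, y, x].Sublist (A ++ z :: u))) →
    u.length ≤ (u.toFinset \ (A ++ [z]).toFinset).card + rep (z :: u) := by
  intro u
  induction u with
  | nil => intro A z _; simp
  | cons x C ih =>
    intro A z h
    have h' := ih (A ++ [z]) x (by simpa using h)
    have hsub1 : C.toFinset \ ((A ++ [z]) ++ [x]).toFinset ⊆
        (x :: C).toFinset \ (A ++ [z]).toFinset := by
      intro y hy
      simp at hy ⊢
      tauto
    have hc1 := card_le_card hsub1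
    simp only [List.length_cons]
    by_cases hzx : z = x
    · have : rep (z :: x :: C) = 1 + rep (x :: C) := by simp [rep, hzx]
      omega
    · have hr : rep (z :: x :: C) = rep (x :: C) := by simp [rep, hzx]
      have hxA : x ∉ A := by
        intro hxA
        exact h x z (Ne.symm hzx) (List.Sublist.append (List.singleton_sublist.2 hxA)
            (.cons_cons z (.cons_cons x (List.nil_sublist _))))
      have : (C.toFinset \ ((A ++ [z]) ++ [x]).toFinset).card <
            ((x :: C).toFinset \ (A ++ [z]).toFinset).card := by
        apply card_lt_card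
        refine ⟨hsub1, fun hh => ?_⟩
        have h3 : x ∈ (x :: C).toFinset \ (A ++ [z]).toFinset := by
          simp [hxA, Ne.symm hzx]
        have h4 := hh h3
        simp at h4
      omega

theorem ds1 (u : List σ) (h : ∀ x y, x ≠ y → ¬ ([x, y, x].Sublist u)) :
    u.length ≤ u.toFinset.card + rep u := by
  cases u with
  | nil => simp
  | cons z u =>
    have h1 := ds1_aux u [] z (by simpa using h)
    have h2 : (u.toFinset \ ([] ++ [z]).toFinset).card < (z :: u).toFinset.card := by
      apply card_lt_card
      refine ⟨fun y hy => ?_, fun hh => ?_⟩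
      · simp at hy ⊢
        tauto
      · have h3 := hh (by simp : z ∈ (z :: u).toFinset)
        simp at h3
    simp only [List.length_cons]
    omega

/-- Blocked sequences with at most `m` blocks. -/
def Pm (σ : Type) (m α β : ℕ) : Prop :=
  ∀ B : List (List σ), B.length ≤ m → (∀ b ∈ B, b.Nodup) → Alt5Free B.flatten →
    B.flatten.length ≤ α * B.flatten.toFinset.card + β * B.length

theorem Pm.mono {m m' α α' β β' : ℕ} (h : Pm σ m α β) (hm : m' ≤ m) (hα : α ≤ α')
    (hβ : β ≤ β') : Pm σ m' α' β' := fun B hB hn h5 =>
  (h B (hB.trans hm) hn h5).trans (Nat.add_le_add (Nat.mul_le_mul_right _ hα)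
    (Nat.mul_le_mul_right _ hβ))

theorem Pm_triv_aux (S : Finset σ) : ∀ B : List (List σ), (∀ b ∈ B, b.Nodup) →
    B.flatten.toFinset ⊆ S → B.flatten.length ≤ B.length * S.card := by
  intro B
  induction B with
  | nil => intro _ _; simp
  | cons b B ih =>
    intro hn hS
    have h1 := ih (fun c hc => hn c (List.mem_cons_of_mem _ hc))
      (fun x hx => hS (by simp at hx ⊢; tauto))
    have h2 : b.length ≤ S.card := by
      rw [← List.toFinset_card_of_nodup (hn b (by simp))]
      exact card_le_card (fun x hx => hS (by simp at hx ⊢; tauto))
    simp only [List.flatten_cons, List.length_append, List.length_cons]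
    rw [Nat.add_mul]
    omega

theorem Pm_triv (m : ℕ) : Pm σ m m 0 := by
  intro B hB hn _
  have h1 := Pm_triv_aux B.flatten.toFinset B hn subset_rfl
  have h2 := Nat.mul_le_mul_right B.flatten.toFinset.card hB
  omega

/-- One group. -/
theorem group_bound {s α β : ℕ} (hP : Pm σ s α β) (g : List (List σ)) (P R : List σ)
    (hg : g.length ≤ s) (hn : ∀ b ∈ g, b.Nodup) (h5 : Alt5Free (P ++ (g.flatten ++ R))) :
    g.flatten.length ≤
      (α * (g.flatten.toFinset.filter (fun x => x ∉ P ∧ x ∉ R)).card + β * g.length) +
      (2 * (g.flatten.toFinset.filter (fun x => x ∉ P ∧ x ∈ R)).card + g.length) +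
      (2 * (g.flatten.toFinset.filter (fun x => x ∈ P ∧ x ∉ R)).card + g.length) +
      ((g.flatten.toFinset.filter (fun x => x ∈ P ∧ x ∈ R)).card + g.length) := by
  have hfl : ∀ (p : σ → Prop) [DecidablePred p],
      (g.flatten.filter p) = (g.map (List.filter p)).flatten :=
    fun p _ => List.filter_flatten
  have hrep : ∀ (p : σ → Prop) [DecidablePred p], rep (g.flatten.filter p) ≤ g.length := by
    intro p _
    rw [hfl]
    have := rep_flatten (g.map (List.filter p)) (by
      intro b hb
      obtain ⟨c, hc, rfl⟩ := List.mem_map.1 hb
      exact (hn c hc).filter _)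
    simpa using this
  have hset : ∀ (p : σ → Prop) [DecidablePred p],
      (g.flatten.filter p).toFinset = g.flatten.toFinset.filter p := by
    intro p _
    ext x
    simp only [List.mem_toFinset, List.mem_filter, Finset.mem_filter, decide_eq_true_eq]
  -- local part
  have hL : (g.flatten.filter (fun x => x ∉ P ∧ x ∉ R)).length ≤
      α * (g.flatten.toFinset.filter (fun x => x ∉ P ∧ x ∉ R)).card + β * g.length := by
    have := hP (g.map (List.filter (fun x => x ∉ P ∧ x ∉ R))) (by simpa using hg) (by
      intro b hb
      obtain ⟨c, hc, rfl⟩ := List.mem_map.1 hb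
      exact (hn c hc).filter _) (by
      rw [← hfl (fun x => x ∉ P ∧ x ∉ R)]
      exact alt5_sub h5 (List.filter_sublist.trans
        ((List.sublist_append_left _ _).trans (List.sublist_append_right _ _))))
    rw [← hfl (fun x => x ∉ P ∧ x ∉ R), hset] at this
    simpa using this
  -- start part
  have hS : (g.flatten.filter (fun x => x ∉ P ∧ x ∈ R)).length ≤
      2 * (g.flatten.toFinset.filter (fun x => x ∉ P ∧ x ∈ R)).card + g.length := by
    have h1 := ds2 (g.flatten.filter (fun x => x ∉ P ∧ x ∈ R)) (by
      intro x y hxy hs
      have hx : x ∈ g.flatten.filter (fun x => x ∉ P ∧ x ∈ R) := hs.subset (by simp)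
      have hxR : x ∈ R := by
        have := (List.mem_filter.1 hx).2
        simp at this
        exact this.2
      exact h5 x y hxy (((hs.trans List.filter_sublist).append
        (List.singleton_sublist.2 hxR)).trans (List.sublist_append_right _ _)))
    rw [hset] at h1
    have h2 := hrep (fun x => x ∉ P ∧ x ∈ R)
    omega
  -- end part
  have hE : (g.flatten.filter (fun x => x ∈ P ∧ x ∉ R)).length ≤
      2 * (g.flatten.toFinset.filter (fun x => x ∈ P ∧ x ∉ R)).card + g.length := by
    have h1 := ds2 (g.flatten.filter (fun x => x ∈ P ∧ x ∉ R)) (by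
      intro x y hxy hs
      have hy : y ∈ g.flatten.filter (fun x => x ∈ P ∧ x ∉ R) := hs.subset (by simp)
      have hyP : y ∈ P := by
        have := (List.mem_filter.1 hy).2
        simp at this
        exact this.1
      exact h5 y x (Ne.symm hxy) ((List.singleton_sublist.2 hyP).append
        ((hs.trans List.filter_sublist).trans (List.sublist_append_left _ _))))
    rw [hset] at h1
    have h2 := hrep (fun x => x ∈ P ∧ x ∉ R)
    omega
  -- middle part
  have hM : (g.flatten.filter (fun x => x ∈ P ∧ x ∈ R)).length ≤
      (g.flatten.toFinset.filter (fun x => x ∈ P ∧ x ∈ R)).card + g.length := by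
    have h1 := ds1 (g.flatten.filter (fun x => x ∈ P ∧ x ∈ R)) (by
      intro x y hxy hs
      have hy : y ∈ g.flatten.filter (fun x => x ∈ P ∧ x ∈ R) := hs.subset (by simp)
      have hyPR : y ∈ P ∧ y ∈ R := by
        have := (List.mem_filter.1 hy).2
        simpa using this
      exact h5 y x (Ne.symm hxy) ((List.singleton_sublist.2 hyPR.1).append
        ((hs.trans List.filter_sublist).append (List.singleton_sublist.2 hyPR.2))))
    rw [hset] at h1
    have h2 := hrep (fun x => x ∈ P ∧ x ∈ R)
    omega
  -- total
  have htot : ∀ L : List σ, L.length = (L.filter (fun x => x ∉ P ∧ x ∉ R)).length +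
      (L.filter (fun x => x ∉ P ∧ x ∈ R)).length + (L.filter (fun x => x ∈ P ∧ x ∉ R)).length +
      (L.filter (fun x => x ∈ P ∧ x ∈ R)).length := by
    intro L
    induction L with
    | nil => simp
    | cons x L ih =>
      by_cases h1 : x ∈ P <;> by_cases h2 : x ∈ R <;>
        simp [h1, h2] at ih ⊢ <;> omega
  have := htot g.flatten
  omega

/-- All groups. -/
theorem core {s α β : ℕ} (hP : Pm σ s α β) : ∀ (G : List (List (List σ))) (P : List σ),
    (∀ g ∈ G, g.length ≤ s) → (∀ g ∈ G, ∀ b ∈ g, b.Nodup) →
    Alt5Free (P ++ G.flatten.flatten) →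
    ∃ (a b c : ℕ) (M : List (List σ)), M.length = G.length ∧ (∀ x ∈ M, x.Nodup) ∧
      M.flatten.Sublist G.flatten.flatten ∧
      G.flatten.flatten.length ≤ α * a + 2 * b + 2 * c + M.flatten.length +
        (β + 3) * G.flatten.length ∧
      a + b ≤ (G.flatten.flatten.toFinset \ P.toFinset).card ∧
      a + c ≤ G.flatten.flatten.toFinset.card ∧
      a + (M.flatten.toFinset ∪ (P.toFinset ∩ G.flatten.flatten.toFinset)).card ≤
        G.flatten.flatten.toFinset.card := by
  intro G
  induction G with
  | nil =>
    intro P _ _ _
    exact ⟨0, 0, 0, [], by simp, by simp, by simp, by simp, by simp, by simp, by simp⟩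
  | cons g G ih =>
    intro P hs hn h5
    have e1 : (g :: G).flatten.flatten = g.flatten ++ G.flatten.flatten := by simp
    rw [e1] at h5 ⊢
    obtain ⟨a', b', c', M', hM1, hM2, hM3, hlen, hab, hac, haM⟩ :=
      ih (P ++ g.flatten) (fun x hx => hs x (List.mem_cons_of_mem _ hx))
        (fun x hx => hn x (List.mem_cons_of_mem _ hx)) (by simpa using h5)
    have hg := group_bound hP g P G.flatten.flatten (hs g (by simp)) (hn g (by simp)) h5
    set w := g.flatten with hw
    set R := G.flatten.flatten with hR
    set n0 := (w.toFinset.filter (fun x => x ∉ P ∧ x ∉ R)).card with hn0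
    set n1 := (w.toFinset.filter (fun x => x ∉ P ∧ x ∈ R)).card with hn1
    set n2 := (w.toFinset.filter (fun x => x ∈ P ∧ x ∉ R)).card with hn2
    set n3 := (w.toFinset.filter (fun x => x ∈ P ∧ x ∈ R)).card with hn3
    have hMs : (w.filter (fun x => x ∈ P ∧ x ∈ R)).dedup.toFinset =
        w.toFinset.filter (fun x => x ∈ P ∧ x ∈ R) := by
      ext x
      simp
    refine ⟨n0 + a', n1 + b', n2 + c', (w.filter (fun x => x ∈ P ∧ x ∈ R)).dedup :: M', ?_, ?_,
      ?_, ?_, ?_, ?_, ?_⟩
    · simp [hM1]
    · intro x hx
      rcases List.mem_cons.1 hx with rfl | hx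
      · exact List.nodup_dedup _
      · exact hM2 x hx
    · rw [List.flatten_cons]
      exact ((List.dedup_sublist _).trans List.filter_sublist).append hM3
    · have h1 : (w.filter (fun x => x ∈ P ∧ x ∈ R)).dedup.length = n3 := by
        rw [← List.toFinset_card_of_nodup (List.nodup_dedup _), hMs]
      simp only [List.length_append, List.flatten_cons]
      rw [h1]
      nlinarith
    · -- fresh symbols
      have h1 : (w.toFinset.filter (fun x => x ∉ P ∧ x ∉ R)) ∪
          (w.toFinset.filter (fun x => x ∉ P ∧ x ∈ R)) ∪ (R.toFinset \ (P ++ w).toFinset) ⊆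
          (w ++ R).toFinset \ P.toFinset := by
        intro x hx
        simp at hx ⊢
        tauto
      have h2 := card_le_card h1
      rw [card_union_of_disjoint, card_union_of_disjoint] at h2
      · omega
      · rw [Finset.disjoint_left]
        intro x hx hx'
        simp at hx hx'
        tauto
      · rw [Finset.disjoint_left]
        intro x hx hx'
        simp at hx hx'
        tauto
    · have h1 : (w.toFinset.filter (fun x => x ∉ P ∧ x ∉ R)) ∪
          (w.toFinset.filter (fun x => x ∈ P ∧ x ∉ R)) ∪ R.toFinset ⊆
          (w ++ R).toFinset := by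
        intro x hx
        simp at hx ⊢
        tauto
      have h2 := card_le_card h1
      rw [card_union_of_disjoint, card_union_of_disjoint] at h2
      · omega
      · rw [Finset.disjoint_left]
        intro x hx hx'
        simp at hx hx'
        tauto
      · rw [Finset.disjoint_left]
        intro x hx hx'
        simp at hx hx'
        tauto
    · -- middle symbols
      have h1 : ((w.filter (fun x => x ∈ P ∧ x ∈ R)).dedup :: M').flatten.toFinset ∪
          (P.toFinset ∩ (w ++ R).toFinset) ⊆
          (M'.flatten.toFinset ∪ ((P ++ w).toFinset ∩ R.toFinset)) ∪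
            (w.toFinset.filter (fun x => x ∈ P ∧ x ∉ R)) := by
        intro x hx
        simp only [List.flatten_cons, List.toFinset_append, Finset.mem_union, hMs,
          Finset.mem_filter, Finset.mem_inter, List.mem_toFinset] at hx ⊢
        tauto
      have h2 := (card_le_card h1).trans (card_union_le _ _)
      have h3 : (w.toFinset.filter (fun x => x ∉ P ∧ x ∉ R)) ∪
          (w.toFinset.filter (fun x => x ∈ P ∧ x ∉ R)) ∪ R.toFinset ⊆
          (w ++ R).toFinset := by
        intro x hx
        simp at hx ⊢
        tauto
      have h4 := card_le_card h3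
      rw [card_union_of_disjoint, card_union_of_disjoint] at h4
      · omega
      · rw [Finset.disjoint_left]
        intro x hx hx'
        simp at hx hx'
        tauto
      · rw [Finset.disjoint_left]
        intro x hx hx'
        simp at hx hx'
        tauto

/-- Grouping the blocks. -/
theorem chunks {τ : Type} (s : ℕ) (hs : 0 < s) : ∀ (n : ℕ) (B : List τ), B.length ≤ n →
    ∃ G : List (List τ), G.flatten = B ∧ (∀ g ∈ G, g.length ≤ s) ∧
      G.length * s < B.length + s := by
  intro n
  induction n with
  | zero =>
    intro B hB
    have : B = [] := List.length_eq_zero_iff.1 (by omega)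
    subst this
    exact ⟨[], by simp, by simp, by simpa using hs⟩
  | succ n ih =>
    intro B hB
    by_cases h0 : B.length ≤ s
    · by_cases h1 : B = []
      · subst h1
        exact ⟨[], by simp, by simp, by simpa using hs⟩
      · have h2 : 0 < B.length := List.length_pos_iff.2 h1
        exact ⟨[B], by simp, by simpa using h0, by simpa using h2⟩
    · obtain ⟨G, h1, h2, h3⟩ := ih (B.drop s) (by rw [List.length_drop]; omega)
      refine ⟨B.take s :: G, by simp [h1], ?_, ?_⟩
      · intro g hg
        rcases List.mem_cons.1 hg with rfl | hg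
        · simp
        · exact h2 g hg
      · rw [List.length_drop] at h3
        simp only [List.length_cons]
        rw [Nat.add_mul]
        omega

/-- The recurrence. -/
theorem step {s t α β α' β' : ℕ} (hs : 0 < s) (h1 : Pm σ s α β) (h2 : Pm σ t α' β')
    (hα : α' + 4 ≤ α) (hβ : β' ≤ s) : Pm σ (s * t) α (β + 5) := by
  intro B hB hn h5
  by_cases hm : B.length ≤ s
  · exact (h1.mono le_rfl le_rfl (by omega)) B hm hn h5
  · obtain ⟨G, hG1, hG2, hG3⟩ := chunks s hs B.length B le_rfl
    have hGt : G.length ≤ t := by
      by_contra hh
      have h3 : (t + 1) * s ≤ G.length * s := Nat.mul_le_mul_right _ (by omega)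
      have h4 : (t + 1) * s = s * t + s := by ring
      omega
    obtain ⟨a, b, c, M, hM1, hM2, hM3, hlen, hab, hac, haM⟩ := core h1 G [] hG2 (by
      intro g hg b hb
      exact hn b (by rw [← hG1]; exact List.mem_flatten.2 ⟨g, hg, hb⟩)) (by
      rw [hG1]; simpa using h5)
    rw [hG1] at hM3 hlen hab hac haM
    have hMb := h2 M (by omega) hM2 (alt5_sub h5 hM3)
    have h6 : M.flatten.toFinset.card ≤
        (M.flatten.toFinset ∪ (([] : List σ).toFinset ∩ B.flatten.toFinset)).card :=
      card_le_card Finset.subset_union_left
    have h7 : (B.flatten.toFinset \ ([] : List σ).toFinset).card = B.flatten.toFinset.card := by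
      simp
    have h8 : β' * M.length ≤ 2 * B.length := by
      have h9 : β' * M.length ≤ s * G.length := by
        rw [hM1]; exact Nat.mul_le_mul_right _ hβ
      have h10 : s * G.length = G.length * s := Nat.mul_comm _ _
      omega
    rw [h7] at hab
    set N := B.flatten.toFinset.card
    obtain ⟨d, hd⟩ : ∃ d, N = a + d := ⟨N - a, by omega⟩
    have h11 : b ≤ d := by omega
    have h12 : c ≤ d := by omega
    have h13 : M.flatten.toFinset.card ≤ d := by omega
    have h14 : α' * M.flatten.toFinset.card ≤ α' * d := Nat.mul_le_mul_left _ h13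
    have h15 : (α' + 4) * d ≤ α * d := Nat.mul_le_mul_right _ hα
    rw [hd]
    nlinarith

/-- The double induction. -/
theorem main_bound (k : ℕ) : ∀ j : ℕ, Pm σ (5 * (ack k j + 1)) (4 * k + 6) (5 * (j + 1)) := by
  induction k with
  | zero =>
    intro j
    have h2 : Pm σ 2 2 0 := Pm_triv 2
    induction j with
    | zero =>
      have h6 : Pm σ 6 6 0 := Pm_triv 6
      exact (step (by norm_num) h6 h2 (by norm_num) (by norm_num)).mono (by simp) (by norm_num)
        (by norm_num)
    | succ j ih =>
      refine (step (by positivity) ih h2 (by norm_num) (by positivity)).mono ?_ (by norm_num) ?_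
      · simp only [ack_zero]; omega
      · omega
  | succ k ihk =>
    intro j
    induction j with
    | zero =>
      have h10 : Pm σ 10 (4 * (k + 1) + 6) 0 := (Pm_triv 10).mono le_rfl (by omega) le_rfl
      refine (step (by norm_num) h10 (ihk 1) (by omega) (by norm_num)).mono ?_ le_rfl
        (by norm_num)
      rw [ack_succ_zero]
      omega
    | succ j ihj =>
      refine (step (by positivity) ihj (ihk (ack (k + 1) j)) (by omega) (by omega)).mono ?_
        le_rfl (by omega)
      rw [ack_succ_succ]
      exact Nat.le_mul_of_pos_left _ (by positivity)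

/-- Maximal repetition-free prefix. -/
theorem prefix_nodup (Q : List σ) : Q.Nodup ∨ ∃ X a Q', Q = X ++ a :: Q' ∧ X.Nodup ∧ a ∈ X := by
  induction Q using List.reverseRecOn with
  | nil => exact Or.inl List.nodup_nil
  | append_singleton Q c ih =>
    rcases ih with h | ⟨X, a, Q', rfl, hX, ha⟩
    · by_cases hc : c ∈ Q
      · exact Or.inr ⟨Q, c, [], rfl, h, hc⟩
      · refine Or.inl ?_
        rw [List.nodup_append]
        refine ⟨h, List.nodup_singleton c, ?_⟩
        intro a ha b hb hab
        rw [List.mem_singleton] at hb
        subst hb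
        subst hab
        exact hc ha
    · exact Or.inr ⟨X, a, Q' ++ [c], by simp, hX, ha⟩

/-- Cutting into blocks. -/
theorem blocks : ∀ (n : ℕ) (P Q : List σ), Q.length ≤ n → Q.IsChain (· ≠ ·) →
    Alt5Free (P ++ Q) → ∃ B : List (List σ), B.flatten = Q ∧ (∀ b ∈ B, b.Nodup) ∧
      B.length ≤ 1 + (Q.toFinset \ P.toFinset).card + Q.toFinset.card := by
  intro n
  induction n with
  | zero =>
    intro P Q hQ _ _
    have : Q = [] := List.length_eq_zero_iff.1 (by omega)
    subst this
    exact ⟨[], by simp, by simp, by simp⟩
  | succ n ih =>
    intro P Q hQ hc h5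
    rcases prefix_nodup Q with h | ⟨X, a, Q', rfl, hX, ha⟩
    · exact ⟨[Q], by simp, by simpa using h, by simp; omega⟩
    · obtain ⟨X1, X2, rfl⟩ := List.append_of_mem ha
      cases X2 with
      | nil =>
        exfalso
        have h1 : (X1 ++ [a]) ++ a :: Q' = (X1 ++ [a, a]) ++ Q' := by simp
        rw [h1] at hc
        have h2 := (hc.left_of_append).right_of_append
        simp at h2
      | cons b X3 =>
        obtain ⟨B, hB1, hB2, hB3⟩ := ih (P ++ (X1 ++ a :: b :: X3)) (a :: Q') (by
          simp at hQ ⊢; omega) (hc.suffix (List.suffix_append _ _)) (by simpa using h5)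
        refine ⟨(X1 ++ a :: b :: X3) :: B, by simp [hB1], ?_, ?_⟩
        · intro c hc'
          rcases List.mem_cons.1 hc' with rfl | hc'
          · exact hX
          · exact hB2 c hc'
        · have hab : b ≠ a := by
            rintro rfl
            have h1 := hX.of_append_right
            simp at h1
          have hs1 : (a :: Q').toFinset \ (P ++ (X1 ++ a :: b :: X3)).toFinset ⊆
              ((X1 ++ a :: b :: X3) ++ a :: Q').toFinset \ P.toFinset := by
            intro x hx
            simp at hx ⊢
            tauto
          have hs2 : (a :: Q').toFinset ⊆ ((X1 ++ a :: b :: X3) ++ a :: Q').toFinset := by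
            intro x hx
            simp at hx ⊢
            tauto
          have hc1 := card_le_card hs1
          have hc2 := card_le_card hs2
          simp only [List.length_cons]
          by_cases hbP : b ∈ P
          · have hbQ : b ∉ a :: Q' := by
              intro hbQ
              have hbQ' : b ∈ Q' := by
                rcases List.mem_cons.1 hbQ with h | h
                · exact absurd h hab
                · exact h
              apply h5 b a hab
              refine (List.singleton_sublist.2 hbP).append ?_
              have h7 : ([a, b] : List σ).Sublist (X1 ++ a :: b :: X3) :=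
                List.Sublist.trans (.cons_cons a (.cons_cons b (List.nil_sublist _)))
                  (List.sublist_append_right _ _)
              exact h7.append (.cons_cons a (List.singleton_sublist.2 hbQ'))
            have : (a :: Q').toFinset.card < ((X1 ++ a :: b :: X3) ++ a :: Q').toFinset.card := by
              apply card_lt_card
              refine ⟨hs2, fun hh => hbQ ?_⟩
              have h8 := hh (by simp : b ∈ ((X1 ++ a :: b :: X3) ++ a :: Q').toFinset)
              exact List.mem_toFinset.1 h8
            omega
          · have : ((a :: Q').toFinset \ (P ++ (X1 ++ a :: b :: X3)).toFinset).card <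
                (((X1 ++ a :: b :: X3) ++ a :: Q').toFinset \ P.toFinset).card := by
              apply card_lt_card
              refine ⟨hs1, fun hh => ?_⟩
              have h8 := hh (by simp [hbP] :
                b ∈ ((X1 ++ a :: b :: X3) ++ a :: Q').toFinset \ P.toFinset)
              simp at h8
            omega

theorem le_ack_invAck (N : ℕ) : N ≤ ack (invAck N) (invAck N) := by
  have hne : {k | N ≤ ack k k}.Nonempty := ⟨N, (lt_ack_right N N).le⟩
  exact Nat.sInf_mem hne

/-- **Packet A.** -/
theorem ds3 : DS3 := by
  refine ⟨25, ?_⟩
  intro σ L hc h5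
  obtain ⟨B, hB1, hB2, hB3⟩ := blocks L.length [] L le_rfl hc (by simpa using h5)
  set N := L.toFinset.card with hN
  have h0 : (L.toFinset \ ([] : List σ).toFinset).card = N := by simp [hN]
  rw [h0] at hB3
  set k := invAck N with hk
  have hNk : N ≤ ack k k := le_ack_invAck N
  by_cases hN0 : N = 0
  · have : L = [] := by
      have := Finset.card_eq_zero.1 hN0
      simpa using this
    subst this
    simp
  · have h1 := main_bound (σ := σ) k k B (by omega) hB2 (by rw [hB1]; exact h5)
    rw [hB1, ← hN] at h1
    have h2 : B.length ≤ 3 * N := by omega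
    have h3 : 5 * (k + 1) * B.length ≤ 5 * (k + 1) * (3 * N) := Nat.mul_le_mul_left _ h2
    nlinarith

end Pool.Agent.Helper88.Trans
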