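import Pool.Agent.Helper39.Trans.Goals

/-!
# The recursion (packet R for MP_549fdb_co)
-/

namespace Pool.Agent.Helper88.Trans

open Finset Classical
open Pool.Agent.Helper39.Trans

/-- `(1 - x) ^ s ≤ 1 - s x + s ^ 2 x ^ 2` on `[0, 1]`. -/
theorem pow_bound (x : ℝ) (h0 : 0 ≤ x) (h1 : x ≤ 1) (s : ℕ) :
    (1 - x) ^ s ≤ 1 - s * x + s ^ 2 * x ^ 2 := by
  induction s with
  | zero => simp
  | succ s ih =>
    have h2 : (1 - x) ^ (s + 1) ≤ (1 - s * x + s ^ 2 * x ^ 2) * (1 - x) := by
      rw [pow_succ]
      exact mul_le_mul_of_nonneg_right ih (by linarith)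
    refine h2.trans ?_
    push_cast
    have h3 : (0 : ℝ) ≤ (s : ℝ) := Nat.cast_nonneg s
    have h4 : 0 ≤ (s : ℝ) ^ 2 * x ^ 3 := by positivity
    have h5 : 0 ≤ (s : ℝ) * x ^ 2 := by positivity
    nlinarith [sq_nonneg x]

section

variable {Λ Q : Type} [Fintype Λ] [Fintype Q] (D K : Q → Finset Λ)

/-- The double counting. -/
theorem double_count (s : ℕ) (hD : ∀ q, (D q).card = s + 1) (hDK : ∀ q, Disjoint (D q) (K q))
    (S : Finset Λ) :
    ((S.card : ℝ) - (s + 1)) * ((univ.filter fun q => D q ⊆ S ∧ Disjoint (K q) S).card : ℝ) +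
      ((univ.filter fun q => D q ⊆ S ∧ (K q ∩ S).card = 1).card : ℝ) ≤
    ∑ g ∈ S, ((univ.filter fun q => D q ⊆ S.erase g ∧ Disjoint (K q) (S.erase g)).card : ℝ) := by
  simp only [Finset.card_filter, Nat.cast_sum, Nat.cast_ite, Nat.cast_one, Nat.cast_zero]
  rw [Finset.sum_comm, Finset.mul_sum, ← Finset.sum_add_distrib]
  apply Finset.sum_le_sum
  intro q _
  by_cases h1 : D q ⊆ S ∧ Disjoint (K q) S
  · have h2 : ¬ (D q ⊆ S ∧ (K q ∩ S).card = 1) := by
      rintro ⟨_, h⟩
      rw [Finset.disjoint_iff_inter_eq_empty.1 h1.2] at h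
      simp at h
    rw [if_pos h1, if_neg h2]
    have h3 : ∑ g ∈ S, (if D q ⊆ S.erase g ∧ Disjoint (K q) (S.erase g) then (1 : ℝ) else 0) =
        ((S \ D q).card : ℝ) := by
      rw [← Finset.sum_filter, Finset.sum_const, nsmul_eq_mul, mul_one]
      congr 1
      apply congrArg
      ext g
      simp only [Finset.mem_filter, Finset.mem_sdiff]
      constructor
      · rintro ⟨hg, h4, _⟩
        exact ⟨hg, fun hh => (Finset.mem_erase.1 (h4 hh)).1 rfl⟩
      · rintro ⟨hg, h4⟩
        refine ⟨hg, fun y hy => Finset.mem_erase.2 ⟨fun hh => h4 (hh ▸ hy), h1.1 hy⟩, ?_⟩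
        exact h1.2.mono_right (Finset.erase_subset _ _)
    rw [h3, Finset.card_sdiff_of_subset h1.1, hD q]
    have h4 : s + 1 ≤ S.card := by
      rw [← hD q]; exact Finset.card_le_card h1.1
    push_cast [Nat.cast_sub h4]
    linarith
  · rw [if_neg h1]
    by_cases h2 : D q ⊆ S ∧ (K q ∩ S).card = 1
    · rw [if_pos h2]
      obtain ⟨g0, hg0⟩ := Finset.card_eq_one.1 h2.2
      have hg1 : g0 ∈ K q ∩ S := by rw [hg0]; simp
      have hg1' := Finset.mem_inter.1 hg1
      have h3 : (if D q ⊆ S.erase g0 ∧ Disjoint (K q) (S.erase g0) then (1 : ℝ) else 0) = 1 := by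
        rw [if_pos]
        refine ⟨fun y hy => Finset.mem_erase.2 ⟨?_, h2.1 hy⟩, ?_⟩
        · rintro rfl
          exact (Finset.disjoint_left.1 (hDK q)) hy hg1'.1
        · rw [Finset.disjoint_left]
          intro y hy hy'
          have h4 := Finset.mem_erase.1 hy'
          have h5 : y ∈ K q ∩ S := Finset.mem_inter.2 ⟨hy, h4.2⟩
          rw [hg0, Finset.mem_singleton] at h5
          exact h4.1 h5
      have h4 := Finset.single_le_sum (f := fun g =>
        (if D q ⊆ S.erase g ∧ Disjoint (K q) (S.erase g) then (1 : ℝ) else 0))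
        (fun g _ => by positivity) hg1'.2
      simp only [h3] at h4
      linarith
    · rw [if_neg h2]
      have : 0 ≤ ∑ g ∈ S, (if D q ⊆ S.erase g ∧ Disjoint (K q) (S.erase g) then (1 : ℝ) else 0) :=
        Finset.sum_nonneg (fun g _ => by positivity)
      linarith

end

/-- **Packet R.** -/
theorem recursion : Recursion := by
  intro s ε hε
  obtain ⟨δ, hδ0, hδ1, hδ2⟩ : ∃ δ : ℝ, 0 < δ ∧ δ < 1 ∧ (s : ℝ) ^ 2 * δ ≤ ε / 2 := by
    refine ⟨min (1 / 2) (ε / (2 * ((s : ℝ) ^ 2 + 1))), ?_, ?_, ?_⟩
    · exact lt_min (by norm_num) (by positivity)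
    · exact lt_of_le_of_lt (min_le_left _ _) (by norm_num)
    · have h1 : (s : ℝ) ^ 2 * min (1 / 2) (ε / (2 * ((s : ℝ) ^ 2 + 1))) ≤
          ((s : ℝ) ^ 2 + 1) * (ε / (2 * ((s : ℝ) ^ 2 + 1))) :=
        mul_le_mul (by linarith) (min_le_right _ _) (le_min (by norm_num) (by positivity))
          (by positivity)
      have h2 : ((s : ℝ) ^ 2 + 1) * (ε / (2 * ((s : ℝ) ^ 2 + 1))) = ε / 2 := by
        field_simp
      linarith
  have hpow1 : (1 - δ) ^ s ≤ 1 := pow_le_one₀ (by linarith) (by linarith)
  have hinv : 0 ≤ 1 / (1 - (1 - δ) ^ s) := one_div_nonneg.2 (by linarith)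
  refine ⟨2 / ε + 1 / (1 - (1 - δ) ^ s), by positivity, ?_⟩
  set C : ℝ := 2 / ε + 1 / (1 - (1 - δ) ^ s) with hC
  have hC0 : 0 < C := by positivity
  have hCε : 1 ≤ C * (ε / 2) := by
    have h1 : (2 / ε) * (ε / 2) = 1 := by field_simp
    have h2 : (2 / ε) * (ε / 2) ≤ C * (ε / 2) :=
      mul_le_mul_of_nonneg_right (by rw [hC]; linarith) (by positivity)
    linarith
  have hCδ : 1 ≤ s → 1 + C * (1 - δ) ^ s ≤ C := by
    intro hs
    have h1 : (1 - δ) ^ s < 1 := pow_lt_one₀ (by linarith) (by linarith) (by omega)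
    have h2 : (1 / (1 - (1 - δ) ^ s)) * (1 - (1 - δ) ^ s) = 1 := by
      have : (1 - (1 - δ) ^ s) ≠ 0 := by linarith
      field_simp
    have h3 : (1 / (1 - (1 - δ) ^ s)) * (1 - (1 - δ) ^ s) ≤ C * (1 - (1 - δ) ^ s) :=
      mul_le_mul_of_nonneg_right (by rw [hC]; have : 0 < 2 / ε := by positivity
                                     linarith) (by linarith)
    nlinarith
  intro Λ Q _ _ D K k B hB hk hD hDK hrec hgr
  intro S
  induction hp : S.card using Nat.strong_induction_on generalizing S with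
  | _ p ih =>
  subst hp
  set N : ℝ := ∑ l ∈ S, k l with hN
  have hN0 : 0 ≤ N := Finset.sum_nonneg (fun l _ => hk l)
  have hNs : 0 ≤ N ^ s := pow_nonneg hN0 s
  by_cases hps : S.card < s + 1
  · have : (univ.filter fun q => D q ⊆ S ∧ Disjoint (K q) S) = ∅ := by
      rw [Finset.filter_eq_empty_iff]
      rintro q _ ⟨h1, _⟩
      have := Finset.card_le_card h1
      rw [hD q] at this
      omega
    rw [this]
    simp only [Finset.card_empty, Nat.cast_zero]
    positivity
  · have hps' : ((s : ℝ) + 1) ≤ S.card := by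
      have : s + 1 ≤ S.card := by omega
      exact_mod_cast this
    have ih' : ∀ g ∈ S, ((univ.filter fun q => D q ⊆ S.erase g ∧
        Disjoint (K q) (S.erase g)).card : ℝ) ≤ C * B * (N - k g) ^ s := by
      intro g hg
      have h1 := ih (S.erase g).card (Finset.card_erase_lt_of_mem hg) (S.erase g) rfl
      have h2 : ∑ l ∈ S.erase g, k l = N - k g := by
        rw [hN, ← Finset.add_sum_erase S k hg]; ring
      rwa [h2] at h1
    have hkN : ∀ g ∈ S, k g ≤ N := fun g hg => Finset.single_le_sum (fun l _ => hk l) hg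
    by_cases hbig : 1 ≤ s ∧ ∃ g ∈ S, δ * N < k g
    · obtain ⟨hs1, g, hg, hgN⟩ := hbig
      have h1 := ih' g hg
      have h2 := hgr S g hg
      have h3 : (univ.filter fun q => D q ⊆ S ∧ Disjoint (K q) S) ⊆
          (univ.filter fun q => (D q ⊆ S ∧ Disjoint (K q) S) ∧ g ∈ D q) ∪
          (univ.filter fun q => D q ⊆ S.erase g ∧ Disjoint (K q) (S.erase g)) := by
        intro q hq
        rw [Finset.mem_filter] at hq
        rw [Finset.mem_union, Finset.mem_filter, Finset.mem_filter]
        by_cases hgq : g ∈ D q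
        · exact Or.inl ⟨hq.1, hq.2, hgq⟩
        · refine Or.inr ⟨hq.1, fun y hy => Finset.mem_erase.2 ⟨fun hh => hgq (hh ▸ hy),
            hq.2.1 hy⟩, hq.2.2.mono_right (Finset.erase_subset _ _)⟩
      have h4 : ((univ.filter fun q => D q ⊆ S ∧ Disjoint (K q) S).card : ℝ) ≤
          ((univ.filter fun q => (D q ⊆ S ∧ Disjoint (K q) S) ∧ g ∈ D q).card : ℝ) +
          ((univ.filter fun q => D q ⊆ S.erase g ∧ Disjoint (K q) (S.erase g)).card : ℝ) := by
        exact_mod_cast (Finset.card_le_card h3).trans (Finset.card_union_le _ _)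
      have h5 : (N - k g) ^ s ≤ (1 - δ) ^ s * N ^ s := by
        rw [← mul_pow]
        exact pow_le_pow_left₀ (by linarith [hkN g hg]) (by linarith) s
      have h6 : C * B * (N - k g) ^ s ≤ C * B * ((1 - δ) ^ s * N ^ s) :=
        mul_le_mul_of_nonneg_left h5 (by positivity)
      have h7 : B * N ^ s * (1 + C * (1 - δ) ^ s) ≤ B * N ^ s * C :=
        mul_le_mul_of_nonneg_left (hCδ hs1) (by positivity)
      rw [← hN] at h2
      nlinarith
    · have hsmall : 1 ≤ s → ∀ g ∈ S, k g ≤ δ * N := by
        intro hs1 g hg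
        by_contra hh
        exact hbig ⟨hs1, g, hg, not_le.1 hh⟩
      have hsum : ∑ g ∈ S, (N - k g) ^ s ≤ N ^ s * ((S.card : ℝ) - s + s ^ 2 * δ) := by
        rcases Nat.eq_zero_or_pos s with hs0 | hs1
        · subst hs0
          simp
        · rcases hN0.eq_or_lt with hN00 | hNpos
          · have hz : ∀ g ∈ S, (N - k g) ^ s = 0 := by
              intro g hg
              have h1 := hsmall hs1 g hg
              have h2 := hk g
              have h3 : N - k g = 0 := by
                rw [← hN00] at h1 ⊢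
                linarith
              rw [h3]
              exact zero_pow (by omega)
            rw [Finset.sum_eq_zero hz, ← hN00, zero_pow (by omega)]
            simp
          · have h1 : ∀ g ∈ S, (N - k g) ^ s ≤
                N ^ s * (1 - s * (k g / N) + s ^ 2 * (δ * (k g / N))) := by
              intro g hg
              have hx0 : 0 ≤ k g / N := div_nonneg (hk g) hN0
              have hx1 : k g / N ≤ 1 := (div_le_one hNpos).2 (hkN g hg)
              have hxδ : k g / N ≤ δ := (div_le_iff₀ hNpos).2 (hsmall hs1 g hg)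
              have e1 : N - k g = N * (1 - k g / N) := by
                field_simp
              rw [e1, mul_pow]
              apply mul_le_mul_of_nonneg_left _ hNs
              have h2 := pow_bound (k g / N) hx0 hx1 s
              have h3 : (k g / N) ^ 2 ≤ δ * (k g / N) := by
                rw [sq]; exact mul_le_mul_of_nonneg_right hxδ hx0
              have h4 : (s : ℝ) ^ 2 * (k g / N) ^ 2 ≤ (s : ℝ) ^ 2 * (δ * (k g / N)) :=
                mul_le_mul_of_nonneg_left h3 (by positivity)
              linarith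
            refine (Finset.sum_le_sum h1).trans ?_
            rw [← Finset.mul_sum]
            apply mul_le_mul_of_nonneg_left _ hNs
            have h5 : ∑ g ∈ S, k g / N = 1 := by
              rw [← Finset.sum_div, ← hN]
              exact div_self hNpos.ne'
            rw [Finset.sum_add_distrib, Finset.sum_sub_distrib, ← Finset.mul_sum,
              ← Finset.mul_sum, ← Finset.mul_sum, h5]
            simp
      have hdc := double_count D K s hD hDK S
      have hr := hrec S
      rw [← hN] at hr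
      have hsum2 : ∑ g ∈ S, ((univ.filter fun q => D q ⊆ S.erase g ∧
          Disjoint (K q) (S.erase g)).card : ℝ) ≤
          C * B * (N ^ s * ((S.card : ℝ) - s + s ^ 2 * δ)) := by
        refine (Finset.sum_le_sum ih').trans ?_
        rw [← Finset.mul_sum]
        exact mul_le_mul_of_nonneg_left hsum (by positivity)
      set n0 : ℝ := ((univ.filter fun q => D q ⊆ S ∧ Disjoint (K q) S).card : ℝ) with hn0
      set n1 : ℝ := ((univ.filter fun q => D q ⊆ S ∧ (K q ∩ S).card = 1).card : ℝ) with hn1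
      have hBN : 0 ≤ B * N ^ s := by positivity
      have h8 : C * B * (N ^ s * ((S.card : ℝ) - s + s ^ 2 * δ)) ≤
          C * B * (N ^ s * ((S.card : ℝ) - s + ε / 2)) := by
        apply mul_le_mul_of_nonneg_left _ (by positivity)
        apply mul_le_mul_of_nonneg_left _ hNs
        linarith
      have h9 : B * N ^ s * 1 ≤ B * N ^ s * (C * (ε / 2)) :=
        mul_le_mul_of_nonneg_left hCε hBN
      have h10 : ((S.card : ℝ) - s + ε) * n0 ≤ ((S.card : ℝ) - s + ε) * (C * B * N ^ s) := by
        nlinarith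
      exact le_of_mul_le_mul_left h10 (by linarith)

end Pool.Agent.Helper88.Trans
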